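import Pool.Agent.Helper1.RK.StB

/-!
# Project RK, module FIB: the fibre of a bad point
-/

set_option autoImplicit false

namespace Pool.Agent.Helper63.RK

open Polynomial Pool.Agent.Helper1.RK

theorem exists_third {r : ℕ} (hr : 3 ≤ r) (k l : Fin r) : ∃ i : Fin r, i ≠ k ∧ i ≠ l := by
  by_contra hcon
  push Not at hcon
  have hsub : (Finset.univ : Finset (Fin r)) ⊆ {k, l} := by
    intro i _
    by_cases h : i = k
    · simp [h]
    · simp [hcon i h]
  have h1 := Finset.card_le_card hsub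
  have h2 : ({k, l} : Finset (Fin r)).card ≤ 2 := Finset.card_le_two
  rw [Finset.card_univ, Fintype.card_fin] at h1
  omega

section

variable {L : Type} [Field L]

theorem leg_ne_zero (l : L) (u : RatFunc L) (hu : ¬ Cst u) : leg l u ≠ 0 := by
  intro h
  unfold leg at h
  rcases mul_eq_zero.1 h with h | h
  · rcases mul_eq_zero.1 h with h | h
    · exact hu ⟨0, by rw [h, map_zero]⟩
    · exact hu ⟨1, by rw [map_one]; exact sub_eq_zero.1 h⟩
  · exact hu ⟨l, sub_eq_zero.1 h⟩

theorem map_leg (φ : RatFunc L →ₐ[L] RatFunc L) (l : L) (U : RatFunc L) :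
    φ (leg l U) = leg l (φ U) := by
  unfold leg
  have : φ (RatFunc.C l) = RatFunc.C l := by
    have := φ.commutes l
    rwa [RatFunc.algebraMap_eq_C] at this
  rw [map_mul, map_mul, map_sub, map_sub, map_one, this]

theorem der_one (d : Derivation ℤ L L) : d 1 = 0 := Derivation.map_one_eq_zero d

theorem lam_ne (d : Derivation ℤ L L) (l : L) (h : d l ≠ 0) : l ≠ 0 ∧ l ≠ 1 := by
  constructor
  · rintro rfl; exact h (map_zero d)
  · rintro rfl; exact h (der_one d)

end

theorem pFIB (h1 : StORD) (h2 : StREG) (h3 : StDER) (h4 : StLCD) (h5 : StLD) (_h6 : StTRN)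
    (h7 : StCMP) (h8 : StPL) : StFIB := by
  intro L _ _ _ Dt hDt r dl lam u D hr cfg k φ U h τ p hKK hU hh hbad hreg hev
  obtain ⟨-, omul, -, oneg, -, -, oadd, oC, -, -⟩ := h1 L p
  obtain ⟨-, rreg, rnreg, rev, rC, -, rops, rneg, -⟩ := h2 L p
  obtain ⟨dex, -, dform, -⟩ := h3 L
  obtain ⟨lcd1, -, lcd3⟩ := h4 L p Dt hDt
  obtain ⟨c1, c2, c3, c4⟩ := h7 L p τ φ hreg hev
  set s := φ RatFunc.X with hs
  set e := ord p (s - RatFunc.C τ) with he
  have hover : ∀ l, Over (dl l) (D l RatFunc.X) (D l) := fun l => ⟨cfg.lift l, rfl⟩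
  -- `s` is not constant
  have hscst : ¬ Cst s := by
    rintro ⟨a, ha⟩
    have : ord p (s - RatFunc.C τ) = 0 := by
      rw [ha, ← map_sub]; exact oC _
    omega
  have hDts : ord p (Dt s) = e - 1 := by
    have := (lcd3 s hscst hreg).2
    rwa [hev] at this
  have hDts0 : Dt s ≠ 0 := by
    intro h0
    exact hscst (((h3 L).2.2.2 Dt hDt s).1 h0)
  obtain ⟨Dc, hDc⟩ := dex (dl k) 0
  have hreg0 : Reg p (0 : RatFunc L) := (rreg 0).2 (Or.inl rfl)
  have hev0 : ev p (0 : RatFunc L) = 0 := by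
    rw [rev 0 hreg0]; exact Or.inl rfl
  have hform : D k s = Dc s + D k RatFunc.X * Dt s := dform _ _ _ _ _ (hover k) hDc hDt s
  obtain ⟨hDcs, hDcs2⟩ := (lcd1 (dl k) 0 Dc hDc hreg0).1 s hreg
  rw [hev, hev0] at hDcs2
  have hunc : ∀ i, ¬ Cst (u i) := cfg.nc
  have hpl : ∀ l i, i ≠ l → (((¬ Reg p (u i) ∨ dl l (ev p (u i)) = 0) →
      Reg p (D l RatFunc.X) ∧ ev p (D l RatFunc.X) = dl l p) ∧
      (¬ Reg p (D l RatFunc.X) → Reg p (u i) ∧ dl l (ev p (u i)) ≠ 0 ∧
        ord p (Dt (u i)) = - ord p (D l RatFunc.X))) := by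
    intro l i hil
    exact h8 L p (dl l) (D l RatFunc.X) (D l) Dt (u i) (hover l) hDt (cfg.kill l i hil) (hunc i)
  rcases hbad with hP | hH
  · -- a pole of `h`
    have hh0 := ((h2 L τ).2.2.1 h).1 hP
    obtain ⟨hne, hlt⟩ := hh0
    have hφh : ord p (φ h) = e * ord τ h := c2 h hne
    have hφh0 : φ h ≠ 0 := by
      intro h0
      exact hne ((map_eq_zero φ).1 h0)
    have hlt' : ord p (φ h) < 0 := by
      rw [hφh]
      exact mul_neg_of_pos_of_neg (by omega) hlt
    have hprod : D k RatFunc.X * Dt s = φ h + - Dc s := by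
      rw [hh, hform]; ring
    have hord : D k RatFunc.X * Dt s ≠ 0 ∧ ord p (D k RatFunc.X * Dt s) = ord p (φ h) := by
      rw [hprod]
      by_cases hz : Dc s = 0
      · rw [hz, neg_zero, add_zero]; exact ⟨hφh0, rfl⟩
      · apply oadd _ _ hφh0 (neg_ne_zero.2 hz)
        rw [oneg]
        rcases (rreg _).1 hDcs with h0 | h0
        · exact absurd h0 hz
        · omega
    obtain ⟨hpr0, hpr1⟩ := hord
    have hVk0 : D k RatFunc.X ≠ 0 := left_ne_zero_of_mul hpr0
    rw [omul _ _ hVk0 hDts0, hDts, hφh] at hpr1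
    have hVk : ord p (D k RatFunc.X) ≤ - e := by
      have : e * ord τ h ≤ e * (-1) := by
        apply mul_le_mul_of_nonneg_left (by omega) (by omega)
      omega
    have hnreg : ¬ Reg p (D k RatFunc.X) := (rnreg _).2 ⟨hVk0, by omega⟩
    refine ⟨hnreg, ?_, ?_, ?_⟩
    · intro l hl
      by_contra hlreg
      have hDls : D l s = 0 := hKK l hl
      have e1 := (h8 L p (dl l) (D l RatFunc.X) (D l) Dt s (hover l) hDt hDls hscst).2 hlreg
      obtain ⟨i, hik, hil⟩ := exists_third hr k l
      have e2 := (hpl l i hil).2 hlreg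
      have e3 := (hpl k i hik).2 hnreg
      have e4 := e1.2.2
      have e5 := e2.2.2
      have e6 := e3.2.2
      omega
    · intro _; omega
    · intro hH
      exact absurd hH.1 hP
  · -- a point of odd order
    obtain ⟨hHreg, hHev, hHodd⟩ := hH
    obtain ⟨hφr, hφe⟩ := c3 h hHreg
    -- the note (N)
    have hN : Reg p (D k RatFunc.X) → (ev p (D k RatFunc.X) - dl k p) * ev p (Dt s) = 0 → False := by
      intro hr1 hr2
      have h9 := ((lcd1 (dl k) (D k RatFunc.X) (D k) (hover k) hr1).1 s hreg).2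
      rw [hr2, add_zero, hev, ← hh, hφe] at h9
      exact hHev h9
    have hlegk : leg (lam k) (u k) ≠ 0 := leg_ne_zero _ _ (hunc k)
    have hlegU : leg (lam k) U ≠ 0 := by
      intro h0
      apply hlegk
      rw [← hU, ← map_leg, h0, map_zero]
    have hordk : ord p (leg (lam k) (u k)) = e * ord τ (leg (lam k) U) := by
      rw [← hU, ← map_leg]; exact c2 _ hlegU
    -- `e` is even
    have heven : Even e := by
      by_contra hodd
      rw [Int.not_even_iff_odd] at hodd
      obtain ⟨i, hik, -⟩ := exists_third hr k k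
      have hlegi : leg (lam i) (u i) ≠ 0 := leg_ne_zero _ _ (hunc i)
      obtain ⟨w, hw⟩ := cfg.sq i k
      have hw0 : w ≠ 0 := by
        rintro rfl
        rw [mul_zero] at hw
        exact (mul_ne_zero hlegi hlegk) hw
      have hsum : ord p (leg (lam i) (u i)) + ord p (leg (lam k) (u k)) = ord p w + ord p w := by
        rw [← omul _ _ hlegi hlegk, hw, omul _ _ hw0 hw0]
      have hoddk : Odd (ord p (leg (lam k) (u k))) := by
        rw [hordk]; exact hodd.mul hHodd
      have hoddi : Odd (ord p (leg (lam i) (u i))) := by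
        have hev2 : Even (ord p (leg (lam i) (u i)) + ord p (leg (lam k) (u k))) := ⟨_, hsum⟩
        by_contra hne
        rw [Int.not_odd_iff_even] at hne
        have := (Int.even_add.1 hev2).1 hne
        exact (Int.not_even_iff_odd.2 hoddk) this
      obtain ⟨l0, l1⟩ := lam_ne (dl i) (lam i) (cfg.one i)
      have hdl : dl k (lam i) = 0 := cfg.zero k i (Ne.symm hik)
      have h10 := (h5 L p (lam i) (dl k) 0 Dc (u i) l0 l1 hdl hDc hreg0 hlegi).2.2 hoddi
      have h11 : ¬ Reg p (u i) ∨ dl k (ev p (u i)) = 0 := by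
        rcases h10 with h | ⟨_, h | h | h⟩
        · exact Or.inl h
        · right; rw [h, map_zero]
        · right; rw [h]; exact der_one _
        · right; rw [h]; exact hdl
      obtain ⟨h12, h13⟩ := (hpl k i hik).1 h11
      exact hN h12 (by rw [h13, sub_self, zero_mul])
    have he2 : 2 ≤ e := by
      obtain ⟨m, hm⟩ := heven
      omega
    have hDtreg : Reg p (Dt s) := (rreg _).2 (Or.inr (by omega))
    have hDtev : ev p (Dt s) = 0 := (rev _ hDtreg).2 (Or.inr (by omega))
    have hnreg : ¬ Reg p (D k RatFunc.X) := fun hr1 => hN hr1 (by rw [hDtev, mul_zero])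
    rw [hDtev, mul_zero, add_zero] at hDcs2
    have hprod : D k RatFunc.X * Dt s = φ h - Dc s := by
      rw [hh, hform]; ring
    have hops := rops (φ h) (Dc s) hφr hDcs
    obtain ⟨-, -, -, -, hsr, hse⟩ := hops
    rw [hφe, hDcs2] at hse
    rw [← hprod] at hsr hse
    have hne : ev p (D k RatFunc.X * Dt s) ≠ 0 := by
      rw [hse]; exact sub_ne_zero.2 hHev
    have hVk0 : D k RatFunc.X ≠ 0 := by
      intro h0
      exact hnreg (by rw [h0]; exact hreg0)
    have hpr0 : D k RatFunc.X * Dt s ≠ 0 := mul_ne_zero hVk0 hDts0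
    have hord0 : ord p (D k RatFunc.X * Dt s) = 0 := by
      have a1 : 0 ≤ ord p (D k RatFunc.X * Dt s) := ((rreg _).1 hsr).resolve_left hpr0
      have a2 : ¬ (1 ≤ ord p (D k RatFunc.X * Dt s)) := by
        intro h14
        exact hne ((rev _ hsr).2 (Or.inr h14))
      omega
    rw [omul _ _ hVk0 hDts0, hDts] at hord0
    refine ⟨hnreg, ?_, ?_, ?_⟩
    · intro l hl
      obtain ⟨Dl, hDl⟩ := dex (dl l) 0
      obtain ⟨l0, l1⟩ := lam_ne (dl k) (lam k) (cfg.one k)
      have hdl : dl l (lam k) = 0 := cfg.zero l k hl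
      have hregτ : Reg τ (0 : RatFunc L) := ((h2 L τ).2.1 0).2 (Or.inl rfl)
      have h10 := (h5 L τ (lam k) (dl l) 0 Dl U l0 l1 hdl hDl hregτ hlegU).2.2 hHodd
      have h11 : ¬ Reg p (u k) ∨ dl l (ev p (u k)) = 0 := by
        rcases h10 with h | ⟨h', h⟩
        · left; rw [← hU]; exact c4 U h
        · right
          have hevU : ev p (u k) = ev τ U := by rw [← hU]; exact (c3 U h').2
          rw [hevU]
          rcases h with h | h | h
          · rw [h, map_zero]
          · rw [h]; exact der_one _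
          · rw [h]; exact hdl
      exact ((hpl l k (Ne.symm hl)).1 h11).1
    · intro hP
      exact absurd hHreg hP
    · intro _
      constructor <;> omega

end Pool.Agent.Helper63.RK
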