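import Pool.Agent.Helper1.RK.StB

/-!
# Project RK, module LUR: Lueroth for the constants
-/

set_option autoImplicit false

namespace Pool.Agent.Helper63.RK

open Polynomial Pool.Agent.Helper1.RK

section

variable {L : Type} [Field L]

theorem alg_C (a : L) : algebraMap L (RatFunc L) a = RatFunc.C a := by
  rw [RatFunc.algebraMap_eq_C]

theorem phi_C (φ : RatFunc L →ₐ[L] RatFunc L) (a : L) : φ (RatFunc.C a) = RatFunc.C a := by
  have := φ.commutes a
  rwa [RatFunc.algebraMap_eq_C] at this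

theorem map_top' (φ : RatFunc L →ₐ[L] RatFunc L) :
    (⊤ : IntermediateField L (RatFunc L)).map φ = IntermediateField.adjoin L {φ RatFunc.X} := by
  rw [← RatFunc.adjoin_X, IntermediateField.adjoin_map, Set.image_singleton]

/-- a derivation maps the field generated by its constants to itself -/
theorem der_mem (d : Derivation ℤ L L) (D : Derivation ℤ (RatFunc L) (RatFunc L))
    (hC : ∀ a, D (RatFunc.C a) = RatFunc.C (d a)) (S : Set (RatFunc L)) (hS : ∀ x ∈ S, D x = 0)
    (x : RatFunc L) (hx : x ∈ IntermediateField.adjoin L S) :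
    D x ∈ IntermediateField.adjoin L S := by
  induction hx using IntermediateField.adjoin_induction with
  | mem x hx => rw [hS x hx]; exact zero_mem _
  | algebraMap a =>
    rw [alg_C, hC, ← alg_C]; exact IntermediateField.algebraMap_mem _ _
  | add x y _ _ h1 h2 => rw [map_add]; exact add_mem h1 h2
  | inv x hx h =>
    rw [Derivation.leibniz_inv, smul_eq_mul]
    exact mul_mem (neg_mem (pow_mem (inv_mem hx) 2)) h
  | mul x y hx hy h1 h2 =>
    rw [Derivation.leibniz, smul_eq_mul, smul_eq_mul]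
    exact add_mem (mul_mem hx h2) (mul_mem hy h1)

theorem closure_top (φ : RatFunc L →ₐ[L] RatFunc L) (S : Set (RatFunc L))
    (hS : ∀ y, y ∈ IntermediateField.adjoin L S ↔ ∃ x, φ x = y) :
    Subfield.closure (Set.range (RatFunc.C : L → RatFunc L) ∪ {x | φ x ∈ S}) = ⊤ := by
  have key : ∀ y ∈ IntermediateField.adjoin L S, ∃ z ∈ Subfield.closure
      (Set.range (RatFunc.C : L → RatFunc L) ∪ {x | φ x ∈ S}), φ z = y := by
    intro y hy
    induction hy using IntermediateField.adjoin_induction with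
    | mem x hx =>
      obtain ⟨z, hz⟩ := (hS x).1 (IntermediateField.subset_adjoin L S hx)
      refine ⟨z, Subfield.subset_closure (Or.inr ?_), hz⟩
      show φ z ∈ S
      rw [hz]; exact hx
    | algebraMap a =>
      refine ⟨RatFunc.C a, Subfield.subset_closure (Or.inl ⟨a, rfl⟩), ?_⟩
      rw [phi_C, alg_C]
    | add x y _ _ h1 h2 =>
      obtain ⟨z1, hz1, e1⟩ := h1
      obtain ⟨z2, hz2, e2⟩ := h2
      exact ⟨z1 + z2, add_mem hz1 hz2, by rw [map_add, e1, e2]⟩
    | inv x _ h =>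
      obtain ⟨z, hz, e⟩ := h
      exact ⟨z⁻¹, inv_mem hz, by rw [map_inv₀, e]⟩
    | mul x y _ _ h1 h2 =>
      obtain ⟨z1, hz1, e1⟩ := h1
      obtain ⟨z2, hz2, e2⟩ := h2
      exact ⟨z1 * z2, mul_mem hz1 hz2, by rw [map_mul, e1, e2]⟩
  rw [eq_top_iff]
  intro x _
  obtain ⟨z, hz, e⟩ := key (φ x) ((hS _).2 ⟨x, rfl⟩)
  rw [← φ.toRingHom.injective e]
  exact hz

theorem closure_iota (ι : RatFunc L ≃ₐ[L] RatFunc L) (M M' : Set (RatFunc L))
    (hM : ∀ x ∈ M, ι x ∈ M')
    (hc : Subfield.closure (Set.range (RatFunc.C : L → RatFunc L) ∪ M) = ⊤) :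
    Subfield.closure (Set.range (RatFunc.C : L → RatFunc L) ∪ M') = ⊤ := by
  have key : ∀ x ∈ Subfield.closure (Set.range (RatFunc.C : L → RatFunc L) ∪ M),
      ι x ∈ Subfield.closure (Set.range (RatFunc.C : L → RatFunc L) ∪ M') := by
    intro x hx
    induction hx using Subfield.closure_induction with
    | mem x hx =>
      rcases hx with ⟨a, rfl⟩ | hx
      · have : ι (RatFunc.C a) = RatFunc.C a := by
          have := ι.commutes a
          rwa [RatFunc.algebraMap_eq_C] at this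
        rw [this]
        exact Subfield.subset_closure (Or.inl ⟨a, rfl⟩)
      · exact Subfield.subset_closure (Or.inr (hM x hx))
    | one => rw [map_one]; exact one_mem _
    | add x y _ _ h1 h2 => rw [map_add]; exact add_mem h1 h2
    | neg x _ h => rw [map_neg]; exact neg_mem h
    | inv x _ h => rw [map_inv₀]; exact inv_mem h
    | mul x y _ _ h1 h2 => rw [map_mul]; exact mul_mem h1 h2
  rw [eq_top_iff]
  intro y _
  have := key (ι.symm y) (by rw [hc]; trivial)
  rwa [AlgEquiv.apply_symm_apply] at this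

/-- a nonconstant function takes all natural values from some point on -/
theorem values [CharZero L] [IsAlgClosed L] (c : RatFunc L) (hc : ¬ Cst c) :
    ∃ N : ℕ, ∀ n : ℕ, N ≤ n → ∃ o : L, Reg o c ∧ ev o c = (n : L) := by
  have hco := c.isCoprime_num_denom
  -- for all `n` but at most one the polynomial `num - n denom` is not constant
  have hdeg : ∀ n m : ℕ, n ≠ m → (c.num - C (n : L) * c.denom).natDegree = 0 →
      (c.num - C (m : L) * c.denom).natDegree = 0 → False := by
    intro n m hnm hn hm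
    obtain ⟨a, ha⟩ := natDegree_eq_zero.1 hn
    obtain ⟨b, hb⟩ := natDegree_eq_zero.1 hm
    have hnm' : ((n : L) - (m : L)) ≠ 0 := by
      rw [sub_ne_zero]; exact_mod_cast hnm
    have e1 : c.denom = C ((b - a) / ((n : L) - m)) := by
      have h2 : C ((n : L) - m) * c.denom = C (b - a) := by
        rw [map_sub, map_sub, ha, hb]; ring
      have h3 : c.denom = C (((n : L) - m)⁻¹) * (C ((n : L) - m) * c.denom) := by
        rw [← mul_assoc, ← map_mul, inv_mul_cancel₀ hnm', map_one, one_mul]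
      rw [h3, h2, ← map_mul]
      congr 1
      field_simp
    have e2 : c.num = C (a + n * ((b - a) / ((n : L) - m))) := by
      have h2 : c.num = C a + C (n : L) * c.denom := by rw [ha]; ring
      rw [h2, e1, map_add, map_mul]
    apply hc
    refine ⟨(a + n * ((b - a) / ((n : L) - m))) / ((b - a) / ((n : L) - m)), ?_⟩
    conv_lhs => rw [← RatFunc.num_div_denom c]
    rw [e1, e2, RatFunc.algebraMap_C, RatFunc.algebraMap_C, ← map_div₀]
  have hroot : ∀ n : ℕ, (c.num - C (n : L) * c.denom).natDegree ≠ 0 →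
      ∃ o : L, Reg o c ∧ ev o c = (n : L) := by
    intro n hn
    have hdeg' : (c.num - C (n : L) * c.denom).degree ≠ 0 := by
      intro h
      exact hn (Polynomial.natDegree_eq_of_degree_eq_some h)
    obtain ⟨o, ho⟩ := IsAlgClosed.exists_root _ hdeg'
    rw [IsRoot.def, eval_sub, eval_mul, eval_C, sub_eq_zero] at ho
    have hd : c.denom.eval o ≠ 0 := by
      intro h0
      rw [h0, mul_zero] at ho
      obtain ⟨x, y, hxy⟩ := hco
      have := congrArg (eval o) hxy
      rw [eval_add, eval_mul, eval_mul, ho, h0, mul_zero, mul_zero, add_zero, eval_one] at this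
      exact zero_ne_one this
    refine ⟨o, hd, ?_⟩
    unfold ev
    rw [ho, mul_div_assoc, div_self hd, mul_one]
  by_cases hbad : ∃ n : ℕ, (c.num - C (n : L) * c.denom).natDegree = 0
  · obtain ⟨n, hn⟩ := hbad
    refine ⟨n + 1, fun m hm => hroot m ?_⟩
    intro hm0
    exact hdeg n m (by omega) hn hm0
  · push Not at hbad
    exact ⟨0, fun m _ => hroot m (hbad m)⟩

theorem der_nat (d : Derivation ℤ L L) (n : ℕ) : d (n : L) = 0 := Derivation.map_natCast d n

end

theorem pLUR (_h1 : StORD) (h2 : StREG) (h3 : StFIN) (h4 : StDER) (h5 : StPL) (h6 : StIOT)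
    (h7 : StTRN) (_h8 : StCMP) (h9 : StMB3) (h10 : StLU2) : StLUR := by
  intro L _ _ _ r dl lam u D cfg k
  obtain ⟨⟨ι, hι⟩, iot2, iot3, iot4, -, iot6⟩ := h6 L
  obtain ⟨dex, -, -, -⟩ := h4 L
  set E := IntermediateField.adjoin L (KK D k) with hE
  have huk : u k ∈ KK D k := fun l hl => cfg.kill l k (Ne.symm hl)
  have hsub : KK D k ⊆ (E : Set (RatFunc L)) := IntermediateField.subset_adjoin L _
  have hEbot : E ≠ ⊥ := by
    intro h
    have h1 : u k ∈ (⊥ : IntermediateField L (RatFunc L)) := by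
      rw [← h]; exact hsub huk
    rw [IntermediateField.mem_bot] at h1
    obtain ⟨a, ha⟩ := h1
    exact cfg.nc k ⟨a, by rw [← ha, RatFunc.algebraMap_eq_C]⟩
  have hgen : E = IntermediateField.adjoin L {RatFunc.Luroth.generator E} :=
    RatFunc.Luroth.eq_adjoin_generator
  have hgc : ¬ Cst (RatFunc.Luroth.generator E) := RatFunc.Luroth.generator_ne_C hEbot
  obtain ⟨φ₀, hφ₀⟩ := iot4 _ hgc
  have hrange : ∀ y, y ∈ E ↔ ∃ x, φ₀ x = y := by
    intro y
    rw [hgen, ← hφ₀, ← map_top']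
    constructor
    · rintro ⟨x, -, hx⟩; exact ⟨x, hx⟩
    · rintro ⟨x, hx⟩; exact ⟨x, trivial, hx⟩
  -- the derivations below
  have hH : ∀ i : {l : Fin r // l ≠ k}, ∃ H, φ₀ H = D i.1 (φ₀ RatFunc.X) := by
    intro i
    apply (hrange _).1
    apply der_mem (dl i.1) (D i.1) (cfg.lift i.1) (KK D k)
    · intro x hx
      exact hx i.1 i.2
    · exact (hrange _).2 ⟨_, rfl⟩
  choose H hH using hH
  have hEi : ∀ i : {l : Fin r // l ≠ k}, ∃ F, Over (dl i.1) (H i) F := fun i => dex (dl i.1) (H i)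
  choose F hF using hEi
  have hcomp : ∀ (i : {l : Fin r // l ≠ k}) g, D i.1 (φ₀ g) = φ₀ (F i g) := by
    intro i
    exact (h7 L (dl i.1)).1 φ₀ (D i.1 RatFunc.X) (H i) (D i.1) (F i) ⟨cfg.lift i.1, rfl⟩ (hF i)
      (hH i).symm
  have hKK : ∀ x, φ₀ x ∈ KK D k ↔ ∀ i : {l : Fin r // l ≠ k}, F i x = 0 := by
    intro x
    constructor
    · intro hx i
      have := hx i.1 i.2
      rw [hcomp i] at this
      exact (map_eq_zero φ₀).1 this
    · intro hx l hl
      rw [hcomp ⟨l, hl⟩, hx ⟨l, hl⟩, map_zero]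
  have hset : {x | φ₀ x ∈ KK D k} = {x | ∀ i : {l : Fin r // l ≠ k}, F i x = 0} := by
    ext x; exact hKK x
  have hclo : Subfield.closure (Set.range (RatFunc.C : L → RatFunc L) ∪
      {x | ∀ i : {l : Fin r // l ≠ k}, F i x = 0}) = ⊤ := by
    rw [← hset]
    exact closure_top φ₀ (KK D k) hrange
  have hreg := h10 L {l : Fin r // l ≠ k} (fun i => dl i.1) F H hF hclo
  -- polynomials
  have hP : ∀ i, ∃ P : L[X], H i = algebraMap L[X] (RatFunc L) P :=
    fun i => (h3 L).1 (H i) (hreg i)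
  choose P hP using hP
  -- at infinity
  have hF' : ∀ i : {l : Fin r // l ≠ k}, ∃ F', Over (dl i.1) (- RatFunc.X ^ 2 * ι (H i)) F' ∧
      ∀ g, F' (ι g) = ι (F i g) := by
    intro i
    obtain ⟨F', -, hF'2⟩ := (h7 L (dl i.1)).2.1 ι (H i) (F i) (hF i)
    exact ⟨F', (h7 L (dl i.1)).2.2 ι hι (H i) (F i) F' (hF i) hF'2, hF'2⟩
  choose F' hF'1 hF'2 using hF'
  have hclo' : Subfield.closure (Set.range (RatFunc.C : L → RatFunc L) ∪
      {x | ∀ i : {l : Fin r // l ≠ k}, F' i x = 0}) = ⊤ := by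
    apply closure_iota ι {x | ∀ i : {l : Fin r // l ≠ k}, F i x = 0} _ _ hclo
    intro x hx i
    rw [hF'2, hx i, map_zero]
  have hreg' := h10 L {l : Fin r // l ≠ k} (fun i => dl i.1) F'
    (fun i => - RatFunc.X ^ 2 * ι (H i)) hF'1 hclo'
  have hPdeg : ∀ i, (P i).natDegree ≤ 2 := by
    intro i
    apply ((iot2 ι hι).2.2 (P i)).1
    have h := hreg' i 0
    have h' := ((h2 L 0).2.2.2.2.2.2.2.1 _ h).1
    rw [hP i] at h'
    convert h' using 1
    ring
  -- three points
  obtain ⟨c, hc⟩ := (hrange (u k)).1 (hsub huk)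
  have hcM : ∀ i, F i c = 0 := by
    rw [← hKK, hc]; exact huk
  have hcc : ¬ Cst c := by
    intro h
    apply cfg.nc k
    rw [← hc]
    exact ((iot6 φ₀).2 c).2 h
  obtain ⟨N, hN⟩ := values c hcc
  obtain ⟨o1, hr1, he1⟩ := hN N le_rfl
  obtain ⟨o2, hr2, he2⟩ := hN (N + 1) (by omega)
  obtain ⟨o3, hr3, he3⟩ := hN (N + 2) (by omega)
  have hne12 : o1 ≠ o2 := by
    rintro rfl
    rw [he1] at he2
    have : N = N + 1 := by exact_mod_cast he2
    omega
  have hne13 : o1 ≠ o3 := by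
    rintro rfl
    rw [he1] at he3
    have : N = N + 2 := by exact_mod_cast he3
    omega
  have hne23 : o2 ≠ o3 := by
    rintro rfl
    rw [he2] at he3
    have : N + 1 = N + 2 := by exact_mod_cast he3
    omega
  obtain ⟨Dt, hDt⟩ := dex 0 1
  have hpt : ∀ (i : {l : Fin r // l ≠ k}) (o : L) (n : ℕ), Reg o c → ev o c = (n : L) →
      (P i).eval o = dl i.1 o := by
    intro i o n hr he
    have h := (h5 L o (dl i.1) (H i) (F i) Dt c (hF i) hDt (hcM i) hcc).1
      (Or.inr (by rw [he, der_nat]))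
    rw [← h.2]
    have h1 := ((h2 L o).1 (P i) 1 (by rw [eval_one]; exact one_ne_zero)).2
    rw [map_one, div_one, eval_one, div_one, ← hP i] at h1
    exact h1.symm
  have hM3 : ∀ i : {l : Fin r // l ≠ k}, F i (((RatFunc.X - RatFunc.C o1) * RatFunc.C (o2 - o3)) /
      ((RatFunc.X - RatFunc.C o3) * RatFunc.C (o2 - o1))) = 0 := by
    intro i
    apply h9 L (dl i.1) (P i) (F i) o1 o2 o3 (hPdeg i) (by rw [← hP i]; exact hF i) hne12 hne13
      hne23
    · exact hpt i o1 N hr1 he1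
    · exact hpt i o2 (N + 1) hr2 he2
    · exact hpt i o3 (N + 2) hr3 he3
  obtain ⟨ψ, hψ⟩ := iot3 (o2 - o3) (-(o1 * (o2 - o3))) (o2 - o1) (-(o3 * (o2 - o1))) (by
    have e : (o2 - o3) * -(o3 * (o2 - o1)) - -(o1 * (o2 - o3)) * (o2 - o1) =
      (o2 - o3) * (o2 - o1) * (o1 - o3) := by ring
    rw [e]
    exact mul_ne_zero (mul_ne_zero (sub_ne_zero.2 hne23) (sub_ne_zero.2 (Ne.symm hne12)))
      (sub_ne_zero.2 hne13))
  have hψ' : ψ RatFunc.X = ((RatFunc.X - RatFunc.C o1) * RatFunc.C (o2 - o3)) /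
      ((RatFunc.X - RatFunc.C o3) * RatFunc.C (o2 - o1)) := by
    rw [hψ]
    congr 1
    · rw [map_neg, map_mul]; ring
    · rw [map_neg, map_mul]; ring
  refine ⟨φ₀.comp (ψ : RatFunc L →ₐ[L] RatFunc L), ?_, ?_⟩
  · show φ₀ (ψ RatFunc.X) ∈ KK D k
    rw [hψ', hKK]
    exact hM3
  · intro w hw
    obtain ⟨x, hx⟩ := (hrange w).1 (hsub hw)
    refine ⟨ψ.symm x, ?_⟩
    show φ₀ (ψ (ψ.symm x)) = w
    rw [AlgEquiv.apply_symm_apply, hx]

end Pool.Agent.Helper63.RK
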