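import Pool.Agent.Helper1.RK.StA

/-!
# Project RK, module DGM: degrees of composed functions
-/

set_option autoImplicit false

namespace Pool.Agent.Helper63.RK

open Polynomial Pool.Agent.Helper1.RK IntermediateField

variable {L : Type} [Field L]

theorem dg_eq (s : RatFunc L) : dg s = Module.finrank (IntermediateField.adjoin L {s}) (RatFunc L) :=
  (RatFunc.finrank_eq_max_natDegree s).symm

theorem dg_zero (s : RatFunc L) : dg s = 0 ↔ Cst s := by
  unfold dg Cst
  rw [RatFunc.eq_C_iff, Nat.max_eq_zero_iff]

theorem map_adjoin (φ : RatFunc L →ₐ[L] RatFunc L) (g : RatFunc L) :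
    (IntermediateField.adjoin L {g}).map φ = IntermediateField.adjoin L {φ g} := by
  rw [IntermediateField.adjoin_map, Set.image_singleton]

theorem map_top (φ : RatFunc L →ₐ[L] RatFunc L) :
    (⊤ : IntermediateField L (RatFunc L)).map φ = IntermediateField.adjoin L {φ RatFunc.X} := by
  rw [← RatFunc.adjoin_X, map_adjoin]

theorem dg_comp (φ : RatFunc L →ₐ[L] RatFunc L) (g : RatFunc L) :
    dg (φ g) = dg g * dg (φ RatFunc.X) := by
  rw [dg_eq, dg_eq, dg_eq, ← map_adjoin, ← map_top]
  have hle : (IntermediateField.adjoin L {g}).map φ ≤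
      (⊤ : IntermediateField L (RatFunc L)).map φ := IntermediateField.map_mono φ le_top
  rw [← IntermediateField.relfinrank_mul_finrank_top hle, IntermediateField.relfinrank_map_map,
    IntermediateField.relfinrank_top_right]

theorem dg_one (φ : RatFunc L →ₐ[L] RatFunc L) :
    dg (φ RatFunc.X) = 1 ↔ Function.Surjective φ := by
  rw [dg_eq, IntermediateField.finrank_eq_one_iff_eq_top, ← map_top]
  constructor
  · intro h y
    have : y ∈ (⊤ : IntermediateField L (RatFunc L)).map φ := by rw [h]; trivial
    obtain ⟨x, -, hx⟩ := this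
    exact ⟨x, hx⟩
  · intro h
    rw [eq_top_iff]
    intro y _
    obtain ⟨x, hx⟩ := h y
    exact ⟨x, trivial, hx⟩

theorem moeb (s : RatFunc L) (hs : dg s = 1) : ∃ a b c e : L, a * e - b * c ≠ 0 ∧
    s = (RatFunc.C a * RatFunc.X + RatFunc.C b) / (RatFunc.C c * RatFunc.X + RatFunc.C e) := by
  unfold dg at hs
  have h1 : s.num.natDegree ≤ 1 := by rw [← hs]; exact le_max_left _ _
  have h2 : s.denom.natDegree ≤ 1 := by rw [← hs]; exact le_max_right _ _
  obtain ⟨a, b, hab⟩ := Polynomial.exists_eq_X_add_C_of_natDegree_le_one h1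
  obtain ⟨c, e, hce⟩ := Polynomial.exists_eq_X_add_C_of_natDegree_le_one h2
  refine ⟨a, b, c, e, ?_, ?_⟩
  · intro h
    have hco := s.isCoprime_num_denom
    -- `num = κ denom`
    have key : ∃ κ : L, s.num = Polynomial.C κ * s.denom := by
      by_cases hc : c = 0
      · have he : e ≠ 0 := by
          intro he
          apply s.denom_ne_zero
          rw [hce, hc, he]; simp
        have ha : a = 0 := by
          rw [hc, mul_zero, sub_zero] at h
          exact (mul_eq_zero.1 h).resolve_right he
        refine ⟨b / e, ?_⟩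
        rw [hab, hce, hc, ha]
        simp only [map_zero, zero_mul, zero_add]
        rw [← map_mul]
        congr 1
        field_simp
      · refine ⟨a / c, ?_⟩
        rw [hab, hce, mul_add, ← mul_assoc, ← map_mul, ← map_mul]
        have e1 : a / c * c = a := by field_simp
        have e2 : a / c * e = b := by
          field_simp
          linear_combination h
        rw [e1, e2]
    obtain ⟨κ, hκ⟩ := key
    have hdvd : s.denom ∣ s.num := ⟨Polynomial.C κ, by rw [hκ, mul_comm]⟩
    have hu : IsUnit s.denom := hco.isUnit_of_dvd' hdvd dvd_rfl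
    have hd0 : s.denom.natDegree = 0 := Polynomial.natDegree_eq_zero_of_isUnit hu
    have hn0 : s.num.natDegree = 0 := by
      have := Polynomial.natDegree_C_mul_le κ s.denom
      rw [← hκ, hd0] at this
      omega
    rw [hd0, hn0] at hs
    simp at hs
  · conv_lhs => rw [← RatFunc.num_div_denom s]
    rw [hab, hce]
    simp [RatFunc.algebraMap_C, RatFunc.algebraMap_X]

theorem holds_DGM : StDGM := by
  intro L _
  exact ⟨dg_zero, dg_comp, dg_one, moeb⟩

theorem pDGM (_h1 : StIOT) : StDGM := holds_DGM

end Pool.Agent.Helper63.RK
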